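import Mathlib

set_option autoImplicit false

namespace Pool.Agent.Results.MP_b87ef1_co.Disproof

open Finset

/-- No three pairwise distinct members with `A ∪ B = C` or `A ∩ B = C`. -/
def Admissible (F : Finset (Finset ℕ)) : Prop :=
  ∀ A ∈ F, ∀ B ∈ F, ∀ C ∈ F, A ≠ B → A ≠ C → B ≠ C → A ∪ B ≠ C ∧ A ∩ B ≠ C

def fam (m : ℕ) : Finset (Finset ℕ) :=
  (Icc 1 (2 * m)).powerset.filter (fun A =>
    (1 ∉ A ∧ (A.card = m - 1 ∨ A.card = 2 * m - 1)) ∨ (1 ∈ A ∧ (A.card = m + 1 ∨ A.card = 1)))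

lemma fam_adm (m : ℕ) (hm : 2 ≤ m) : Admissible (fam m) := by
  intro A hA B hB C hC _ hAC hBC
  simp only [fam, mem_filter, mem_powerset] at hA hB hC
  have h0 := card_union_add_card_inter A B
  constructor
  · rintro rfl
    have h1 := card_lt_card (ssubset_of_subset_of_ne (subset_union_left (s₂ := B)) hAC)
    have h2 := card_lt_card (ssubset_of_subset_of_ne (subset_union_right (s₁ := A)) hBC)
    have h3 := hC.2
    rw [mem_union] at h3
    by_cases a1 : 1 ∈ A <;> by_cases b1 : 1 ∈ B <;> simp only [a1, b1] at hA hB h3 <;>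
      simp at hA hB h3 <;> omega
  · rintro rfl
    have h1 := card_lt_card (ssubset_of_subset_of_ne (inter_subset_left (s₂ := B)) hAC.symm)
    have h2 := card_lt_card (ssubset_of_subset_of_ne (inter_subset_right (s₁ := A)) hBC.symm)
    have h3 := hC.2
    have h4 := card_le_card (union_subset hA.1 hB.1)
    rw [Nat.card_Icc] at h4
    rw [mem_inter] at h3
    by_cases a1 : 1 ∈ A <;> by_cases b1 : 1 ∈ B <;> simp only [a1, b1] at hA hB h3 <;>
      simp at hA hB h3 <;> omega

lemma fam_card (m : ℕ) (hm : 2 ≤ m) : (2 * m).choose m + 2 ≤ (fam m).card := by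
  set X := Icc 2 (2 * m) with hX
  have hXc : X.card = 2 * m - 1 := by simp [hX]
  have h1X : 1 ∉ X := by simp [hX]
  have hXs : X ⊆ Icc 1 (2 * m) := Icc_subset_Icc_left (by omega)
  have hsub : powersetCard (m - 1) X ∪ (powersetCard m X).image (insert 1) ∪ {{1}, X} ⊆ fam m := by
    intro A hA
    simp only [mem_union, mem_image, mem_powersetCard, mem_insert, mem_singleton] at hA
    simp only [fam, mem_filter, mem_powerset]
    rcases hA with (⟨h1, h2⟩ | ⟨B, ⟨h1, h2⟩, rfl⟩) | rfl | rfl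
    · exact ⟨h1.trans hXs, Or.inl ⟨fun h => h1X (h1 h), Or.inl h2⟩⟩
    · refine ⟨insert_subset (by simp; omega) (h1.trans hXs), Or.inr ⟨by simp, Or.inl ?_⟩⟩
      rw [card_insert_of_notMem (fun h => h1X (h1 h)), h2]
    · exact ⟨by simp; omega, Or.inr ⟨by simp, Or.inr rfl⟩⟩
    · exact ⟨hXs, Or.inl ⟨h1X, Or.inr hXc⟩⟩
  refine le_trans (le_of_eq ?_) (card_le_card hsub)
  rw [card_union_of_disjoint, card_union_of_disjoint, card_image_of_injOn, card_powersetCard,
    card_powersetCard, hXc, card_pair]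
  · obtain ⟨k, rfl⟩ : ∃ k, m = k + 1 := ⟨m - 1, by omega⟩
    rw [show 2 * (k + 1) = (2 * k + 1) + 1 by ring, Nat.choose_succ_succ']
    simp
  · intro h
    apply h1X
    rw [← h]
    simp
  · intro A hA B hB h
    rw [mem_coe, mem_powersetCard] at hA hB
    have hA1 : 1 ∉ A := fun h => h1X (hA.1 h)
    have hB1 : 1 ∉ B := fun h => h1X (hB.1 h)
    rw [← erase_insert hA1, ← erase_insert hB1, h]
  · rw [disjoint_left]
    intro A hA hB
    simp only [mem_image, mem_powersetCard] at hA hB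
    obtain ⟨B, -, rfl⟩ := hB
    exact h1X (hA.1 (by simp))
  · rw [disjoint_left]
    intro A hA hB
    simp only [mem_union, mem_image, mem_powersetCard, mem_insert, mem_singleton] at hA hB
    rcases hA with ⟨h1, h2⟩ | ⟨B, ⟨h1, h2⟩, h3⟩ <;> rcases hB with rfl | rfl
    · exact h1X (h1 (by simp))
    · omega
    · have := congrArg card h3
      rw [card_insert_of_notMem (fun h => h1X (h1 h)), card_singleton] at this
      omega
    · exact h1X (h3 ▸ mem_insert_self 1 B)

theorem result (n : ℕ) (hn : 4 ≤ n) (he : Even n) :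
    ∃ F ⊆ (Icc 1 n).powerset, Admissible F ∧ n.choose (n / 2) + 2 ≤ F.card := by
  obtain ⟨m, rfl⟩ := he
  rw [← two_mul] at hn ⊢
  refine ⟨fam m, filter_subset _ _, fam_adm m (by omega), ?_⟩
  rw [Nat.mul_div_cancel_left m (by norm_num)]
  exact fam_card m (by omega)

end Pool.Agent.Results.MP_b87ef1_co.Disproof
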